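import Mathlib

/-!
# Products of Toeplitz operators with bounded harmonic symbols on polyanalytic Bergman spaces

Let `n ≥ 2`, let `u, v` be bounded harmonic functions on the unit disc, and let `F` be an arbitrary
essentially bounded function. If `T_u T_v = T_F` on the `n`-analytic Bergman space `A²_n`, then
`conj u` is holomorphic or `v` is holomorphic.

Idea: write `u = z^j p + conj U` and `v = V + conj (z^l q)` with `p(0) ≠ 0`, `q(0) ≠ 0`, `j, l ≥ 1`.
For every symbol `F` the operator `T_F` satisfies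
`⟨T_F (z^l w^(n-1)), z^(j-1) w^(n-2)⟩ = ⟨T_F (z^(l-1) w^(n-1)), z^(j-1) w^(n-1)⟩`, `w = conj z`,
while for `T_u T_v` the two sides differ by a nonzero multiple of `conj (q 0) * p 0`.
-/

open MeasureTheory Complex Metric Set Filter Topology
open scoped Real ENNReal ComplexConjugate InnerProductSpace

namespace Pool.Agent.Results.MP_70342b_an.HarmonicToeplitz

/-! ## Definitions -/


/-- Normalised Lebesgue area measure `dA` on the open unit disc, regarded as a measure on `ℂ`
supported on the disc. -/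
noncomputable def dA : Measure ℂ := (ENNReal.ofReal π)⁻¹ • volume.restrict (ball (0 : ℂ) 1)

/-- `h` is `n`-analytic on the unit disc: `h(z) = ∑_{j<n} h_j(z) conj(z)^j` there, with
`h_0, …, h_{n-1}` holomorphic on the disc. -/
def IsPolyanalytic (n : ℕ) (h : ℂ → ℂ) : Prop :=
  ∃ c : ℕ → ℂ → ℂ, (∀ j < n, DifferentiableOn ℂ (c j) (ball (0 : ℂ) 1)) ∧
    ∀ z ∈ ball (0 : ℂ) 1, h z = ∑ j ∈ Finset.range n, c j z * (conj z) ^ j

/-- `h` belongs to the `n`-analytic Bergman space `A²_n`: it is `n`-analytic on the disc and square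
integrable with respect to `dA`. -/
def MemBergman (n : ℕ) (h : ℂ → ℂ) : Prop :=
  IsPolyanalytic n h ∧ MemLp h 2 dA

/-- `g = P_n w`, the orthogonal projection of `w ∈ L²(dA)` onto `A²_n`: the function `g` belongs to
`A²_n` and `w - g` is orthogonal to `A²_n`. -/
def IsProjection (n : ℕ) (w g : ℂ → ℂ) : Prop :=
  MemBergman n g ∧ ∀ k : ℂ → ℂ, MemBergman n k → ∫ z, (w z - g z) * conj (k z) ∂dA = 0

open Classical in
/-- The Toeplitz operator `T_f h = P_n (f h)` on `A²_n`. For `w ∈ L²(dA)` the projection `P_n w`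
exists (`exists_projection` below) and is unique on the disc (`projection_unique` below), so for
essentially bounded `f` and `h ∈ A²_n` this is the usual Toeplitz operator. -/
noncomputable def toeplitz (n : ℕ) (f h : ℂ → ℂ) : ℂ → ℂ :=
  if H : ∃ g, IsProjection n (fun z => f z * h z) g then H.choose else 0

/-! ## Area integrals -/


lemma symm_polar_eq_circleMap (p : ℝ × ℝ) :
    Complex.polarCoord.symm p = circleMap 0 p.1 p.2 := by
  simp [circleMap, Complex.exp_mul_I]

/-- polar coordinates area formula for continuous integrable functions on a disc -/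
lemma integral_ball_zero {f : ℂ → ℂ} {R : ℝ} (hf : ContinuousOn f (ball 0 R))
    (hint : IntegrableOn f (ball 0 R)) :
    ∫ z in ball (0 : ℂ) R, f z =
      ∫ r in Ioo (0 : ℝ) R, ((2 * π * r : ℝ) : ℂ) * Real.circleAverage f 0 r := by
  have hT : MeasurableSet (polarCoord.target) := polarCoord.open_target.measurableSet
  have h1 : ∫ z in ball (0 : ℂ) R, f z = ∫ p in Ioo (0 : ℝ) R ×ˢ Ioo (-π) π,
      (p.1 : ℂ) * f (Complex.polarCoord.symm p) := by
    rw [← integral_indicator measurableSet_ball, ← Complex.integral_comp_polarCoord_symm,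
      ← integral_indicator hT,
      ← integral_indicator (measurableSet_Ioo.prod measurableSet_Ioo)]
    congr 1
    ext p
    by_cases hp : p ∈ Ioo (0 : ℝ) R ×ˢ Ioo (-π) π
    · have h2 : p ∈ polarCoord.target := ⟨hp.1.1, hp.2⟩
      have h3 : Complex.polarCoord.symm p ∈ ball (0 : ℂ) R := by
        rw [mem_ball_zero_iff, Complex.norm_polarCoord_symm, abs_of_pos hp.1.1]
        exact hp.1.2
      rw [indicator_of_mem hp, indicator_of_mem h2, indicator_of_mem h3]
      simp
    · rw [indicator_of_notMem hp]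
      by_cases h2 : p ∈ polarCoord.target
      · have h3 : Complex.polarCoord.symm p ∉ ball (0 : ℂ) R := by
          rw [mem_ball_zero_iff, Complex.norm_polarCoord_symm, abs_of_pos h2.1]
          intro h
          exact hp ⟨⟨h2.1, h⟩, h2.2⟩
        rw [indicator_of_mem h2, indicator_of_notMem h3]
        simp
      · rw [indicator_of_notMem h2]
  have hmaps : ∀ p ∈ Ioo (0 : ℝ) R ×ˢ Ioo (-π) π, Complex.polarCoord.symm p ∈ ball (0 : ℂ) R := by
    intro p hp
    rw [mem_ball_zero_iff, Complex.norm_polarCoord_symm, abs_of_pos hp.1.1]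
    exact hp.1.2
  have hcont : ContinuousOn (fun p : ℝ × ℝ => (p.1 : ℂ) * f (Complex.polarCoord.symm p))
      (Ioo (0 : ℝ) R ×ˢ Ioo (-π) π) := by
    apply ContinuousOn.mul (by fun_prop)
    apply hf.comp _ hmaps
    have h0 : (fun p : ℝ × ℝ => Complex.polarCoord.symm p) = fun p => circleMap 0 p.1 p.2 :=
      funext symm_polar_eq_circleMap
    change ContinuousOn (fun p : ℝ × ℝ => Complex.polarCoord.symm p) _
    rw [h0]
    unfold circleMap
    fun_prop
  have hint2 : IntegrableOn (fun p : ℝ × ℝ => (p.1 : ℂ) * f (Complex.polarCoord.symm p))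
      (Ioo (0 : ℝ) R ×ˢ Ioo (-π) π) := by
    refine ⟨hcont.aestronglyMeasurable (measurableSet_Ioo.prod measurableSet_Ioo), ?_⟩
    have h4 : ∫⁻ p in Ioo (0 : ℝ) R ×ˢ Ioo (-π) π, ‖(p.1 : ℂ) * f (Complex.polarCoord.symm p)‖ₑ
        = ∫⁻ z in ball (0 : ℂ) R, ‖f z‖ₑ := by
      rw [← lintegral_indicator (measurableSet_Ioo.prod measurableSet_Ioo),
        ← lintegral_indicator measurableSet_ball, ← Complex.lintegral_comp_polarCoord_symm,
        ← lintegral_indicator hT]
      congr 1
      ext p
      by_cases hp : p ∈ Ioo (0 : ℝ) R ×ˢ Ioo (-π) π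
      · have h2 : p ∈ polarCoord.target := ⟨hp.1.1, hp.2⟩
        rw [indicator_of_mem hp, indicator_of_mem h2, indicator_of_mem (hmaps p hp)]
        rw [enorm_mul, smul_eq_mul]
        congr 1
        rw [← ofReal_norm, Complex.norm_real, Real.norm_eq_abs, abs_of_pos hp.1.1]
      · rw [indicator_of_notMem hp]
        by_cases h2 : p ∈ polarCoord.target
        · have h3 : Complex.polarCoord.symm p ∉ ball (0 : ℂ) R := by
            rw [mem_ball_zero_iff, Complex.norm_polarCoord_symm, abs_of_pos h2.1]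
            intro h
            exact hp ⟨⟨h2.1, h⟩, h2.2⟩
          rw [indicator_of_mem h2, indicator_of_notMem h3]
          simp
        · rw [indicator_of_notMem h2]
    rw [HasFiniteIntegral, h4]
    exact hint.2
  rw [h1, Measure.volume_eq_prod, setIntegral_prod _ hint2]
  refine setIntegral_congr_fun measurableSet_Ioo fun r hr => ?_
  simp only
  rw [integral_const_mul, Real.circleAverage_def]
  have h5 : ∫ θ in (0 : ℝ)..2 * π, f (circleMap 0 r θ) = ∫ θ in Ioo (-π) π,
      f (Complex.polarCoord.symm (r, θ)) := by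
    have hper : Function.Periodic (fun θ => f (circleMap 0 r θ)) (2 * π) := by
      intro θ
      simp only [periodic_circleMap 0 r θ]
    have h6 := hper.intervalIntegral_add_eq 0 (-π)
    rw [zero_add] at h6
    rw [h6, intervalIntegral.integral_of_le (by linarith [Real.pi_pos]),
      show -π + 2 * π = π by ring, integral_Ioc_eq_integral_Ioo]
    simp only [symm_polar_eq_circleMap]
  rw [h5]
  rw [Complex.real_smul]
  push_cast
  have : (π : ℂ) ≠ 0 := by exact_mod_cast Real.pi_ne_zero
  field_simp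

/-- Mean value type formula: the pairing of an `n`-analytic function with
`q(z) z^(n-1+l) conj(z)^l` over the unit disc only sees the top component at the centre. -/
lemma key {n l : ℕ} (hn : 1 ≤ n) {c : ℕ → ℂ → ℂ}
    (hc : ∀ j < n, DifferentiableOn ℂ (c j) (ball 0 1)) {q : ℂ → ℂ}
    (hq : DifferentiableOn ℂ q (ball 0 1))
    (hint : IntegrableOn (fun z => (∑ j ∈ Finset.range n, c j z * (conj z) ^ j) *
      (q z * z ^ (n - 1 + l) * (conj z) ^ l)) (ball 0 1)) :
    ∫ z in ball (0 : ℂ) 1, (∑ j ∈ Finset.range n, c j z * (conj z) ^ j) *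
      (q z * z ^ (n - 1 + l) * (conj z) ^ l) = π * (c (n - 1) 0 * q 0) / (n + l) := by
  have hcont : ContinuousOn (fun z => (∑ j ∈ Finset.range n, c j z * (conj z) ^ j) *
      (q z * z ^ (n - 1 + l) * (conj z) ^ l)) (ball 0 1) := by
    apply ContinuousOn.mul
    · apply continuousOn_finsetSum
      intro j hj
      exact ((hc j (Finset.mem_range.1 hj)).continuousOn).mul (by fun_prop)
    · exact (hq.continuousOn.mul (by fun_prop)).mul (by fun_prop)
  rw [integral_ball_zero hcont hint]
  have havg : ∀ r ∈ Ioo (0 : ℝ) 1, Real.circleAverage (fun z =>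
      (∑ j ∈ Finset.range n, c j z * (conj z) ^ j) *
      (q z * z ^ (n - 1 + l) * (conj z) ^ l)) 0 r =
      c (n - 1) 0 * q 0 * (r : ℂ) ^ (2 * (l + (n - 1))) := by
    intro r hr
    have hcongr : Real.circleAverage (fun z =>
      (∑ j ∈ Finset.range n, c j z * (conj z) ^ j) *
      (q z * z ^ (n - 1 + l) * (conj z) ^ l)) 0 r = Real.circleAverage (fun z =>
      ∑ j ∈ Finset.range n, c j z * q z * (r : ℂ) ^ (2 * (l + j)) * z ^ (n - 1 - j)) 0 r := by
      apply Real.circleAverage_congr_sphere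
      intro z hz
      simp only
      rw [Finset.sum_mul]
      apply Finset.sum_congr rfl
      intro j hj
      have hj' : j ≤ n - 1 := by have := Finset.mem_range.1 hj; omega
      have hzz : z * conj z = (r : ℂ) ^ 2 := by
        rw [Complex.mul_conj, Complex.normSq_eq_norm_sq]
        rw [mem_sphere_zero_iff_norm, abs_of_pos hr.1] at hz
        rw [hz]; push_cast; ring
      have e1 : z ^ (n - 1 + l) = z ^ (l + j) * z ^ (n - 1 - j) := by
        rw [← pow_add]; congr 1; omega
      calc c j z * conj z ^ j * (q z * z ^ (n - 1 + l) * conj z ^ l)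
          = c j z * q z * ((z * conj z) ^ (l + j)) * z ^ (n - 1 - j) := by
            rw [e1, mul_pow]; ring
        _ = _ := by rw [hzz, ← pow_mul]
    rw [hcongr]
    have hdiff : DiffContOnCl ℂ (fun z =>
      ∑ j ∈ Finset.range n, c j z * q z * (r : ℂ) ^ (2 * (l + j)) * z ^ (n - 1 - j))
      (ball 0 |r|) := by
      apply DifferentiableOn.diffContOnCl
      have hsub : closure (ball (0 : ℂ) |r|) ⊆ ball 0 1 := by
        rw [abs_of_pos hr.1]
        exact closure_ball_subset_closedBall.trans (closedBall_subset_ball hr.2)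
      apply DifferentiableOn.mono _ hsub
      apply DifferentiableOn.fun_sum
      intro j hj
      exact (((hc j (Finset.mem_range.1 hj)).mul hq).mul_const _).mul (by fun_prop)
    rw [hdiff.circleAverage]
    rw [Finset.sum_eq_single (n - 1)]
    · simp
    · intro j hj hne
      have : n - 1 - j ≠ 0 := by have := Finset.mem_range.1 hj; omega
      simp [this]
    · intro h
      exact absurd (Finset.mem_range.2 (by omega)) h
  rw [setIntegral_congr_fun measurableSet_Ioo (g := fun r : ℝ => (((2 * π *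
    r ^ (2 * (l + (n - 1)) + 1) : ℝ) : ℂ)) * (c (n - 1) 0 * q 0)) ?_]
  · rw [integral_mul_const, integral_complex_ofReal]
    rw [← integral_Ioc_eq_integral_Ioo, ← intervalIntegral.integral_of_le zero_le_one,
      intervalIntegral.integral_const_mul, integral_pow]
    have h1 : ((2 * (l + (n - 1)) + 1 : ℕ) : ℝ) + 1 = 2 * (n + l) := by
      have : ((n - 1 : ℕ) : ℝ) = n - 1 := by
        rw [Nat.cast_sub hn]; simp
      push_cast
      rw [this]; ring
    rw [h1]
    have h2 : ((n : ℂ) + l) ≠ 0 := by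
      have : 0 < n + l := by omega
      exact_mod_cast this.ne'
    push_cast
    simp only [one_pow]
    rw [zero_pow (by omega)]
    field_simp
    ring
  · intro r hr
    simp only
    rw [havg r hr]
    push_cast
    ring

/-- The top component of an `n`-analytic function at an arbitrary point as an area integral. -/
lemma top_formula {n : ℕ} (hn : 1 ≤ n) {a : ℂ} {R : ℝ} (hR : 0 < R)
    (hsub : closedBall a R ⊆ ball (0 : ℂ) 1) {c : ℕ → ℂ → ℂ}
    (hc : ∀ j < n, DifferentiableOn ℂ (c j) (ball 0 1)) :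
    ∫ z in ball a R, (∑ j ∈ Finset.range n, c j z * (conj z) ^ j) * (z - a) ^ (n - 1) =
      (π * R ^ (2 * n) / n) * c (n - 1) a := by
  have hmem : ∀ w ∈ closedBall (0 : ℂ) R, a + w ∈ ball (0 : ℂ) 1 := by
    intro w hw
    apply hsub
    simpa [mem_closedBall, dist_eq_norm] using hw
  set F : ℂ → ℂ := fun z => (∑ j ∈ Finset.range n, c j z * (conj z) ^ j) * (z - a) ^ (n - 1)
    with hF
  have htrans : ∫ z in ball a R, F z = ∫ w in ball (0 : ℂ) R, F (a + w) := by
    rw [← integral_indicator measurableSet_ball, ← integral_indicator measurableSet_ball,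
      ← integral_add_left_eq_self _ a]
    congr 1
    ext w
    by_cases hw : w ∈ ball (0 : ℂ) R
    · have : a + w ∈ ball a R := by simpa [mem_ball, dist_eq_norm] using hw
      rw [indicator_of_mem hw, indicator_of_mem this]
    · have : a + w ∉ ball a R := by simpa [mem_ball, dist_eq_norm] using hw
      rw [indicator_of_notMem hw, indicator_of_notMem this]
  have hcd : ∀ j < n, DifferentiableOn ℂ (fun w => c j (a + w)) (closedBall 0 R) := by
    intro j hj
    exact (hc j hj).comp (by fun_prop) hmem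
  have hcont : ContinuousOn (fun w => F (a + w)) (closedBall 0 R) := by
    apply ContinuousOn.mul
    · apply continuousOn_finsetSum
      intro j hj
      exact ((hcd j (Finset.mem_range.1 hj)).continuousOn).mul (by fun_prop)
    · fun_prop
  rw [htrans, integral_ball_zero (hcont.mono ball_subset_closedBall)
    ((hcont.integrableOn_compact (isCompact_closedBall 0 R)).mono_set ball_subset_closedBall)]
  have havg : ∀ r ∈ Ioo (0 : ℝ) R, Real.circleAverage (fun w => F (a + w)) 0 r =
      c (n - 1) a * (r : ℂ) ^ (2 * (n - 1)) := by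
    intro r hr
    have hcongr : Real.circleAverage (fun w => F (a + w)) 0 r = Real.circleAverage (fun w =>
      ∑ j ∈ Finset.range n, c j (a + w) * (conj a * w + (r : ℂ) ^ 2) ^ j * w ^ (n - 1 - j))
        0 r := by
      apply Real.circleAverage_congr_sphere
      intro z hz
      simp only [hF]
      rw [Finset.sum_mul]
      apply Finset.sum_congr rfl
      intro j hj
      have hj' : j ≤ n - 1 := by have := Finset.mem_range.1 hj; omega
      have hzz : z * conj z = (r : ℂ) ^ 2 := by
        rw [Complex.mul_conj, Complex.normSq_eq_norm_sq]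
        rw [mem_sphere_zero_iff_norm, abs_of_pos hr.1] at hz
        rw [hz]; push_cast; ring
      have e1 : z ^ (n - 1) = z ^ j * z ^ (n - 1 - j) := by
        rw [← pow_add]; congr 1; omega
      calc c j (a + z) * conj (a + z) ^ j * (a + z - a) ^ (n - 1)
          = c j (a + z) * (conj (a + z) * z) ^ j * z ^ (n - 1 - j) := by
            rw [add_sub_cancel_left, e1, mul_pow]; ring
        _ = _ := by rw [map_add, add_mul, mul_comm (conj z) z, hzz]
    rw [hcongr]
    have hdiff : DiffContOnCl ℂ (fun w =>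
      ∑ j ∈ Finset.range n, c j (a + w) * (conj a * w + (r : ℂ) ^ 2) ^ j * w ^ (n - 1 - j))
      (ball 0 |r|) := by
      apply DifferentiableOn.diffContOnCl
      have hsub : closure (ball (0 : ℂ) |r|) ⊆ closedBall 0 R := by
        rw [abs_of_pos hr.1]
        exact closure_ball_subset_closedBall.trans (closedBall_subset_closedBall hr.2.le)
      apply DifferentiableOn.mono _ hsub
      apply DifferentiableOn.fun_sum
      intro j hj
      exact ((hcd j (Finset.mem_range.1 hj)).mul (by fun_prop)).mul (by fun_prop)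
    rw [hdiff.circleAverage]
    rw [Finset.sum_eq_single (n - 1)]
    · simp [← pow_mul]
    · intro j hj hne
      have : n - 1 - j ≠ 0 := by have := Finset.mem_range.1 hj; omega
      simp [this]
    · intro h
      exact absurd (Finset.mem_range.2 (by omega)) h
  rw [setIntegral_congr_fun measurableSet_Ioo (g := fun r : ℝ => (((2 * π *
    r ^ (2 * (n - 1) + 1) : ℝ) : ℂ)) * (c (n - 1) a)) ?_]
  · rw [integral_mul_const, integral_complex_ofReal]
    rw [← integral_Ioc_eq_integral_Ioo, ← intervalIntegral.integral_of_le hR.le,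
      intervalIntegral.integral_const_mul, integral_pow]
    have h1 : ((2 * (n - 1) + 1 : ℕ) : ℝ) + 1 = 2 * n := by
      have : ((n - 1 : ℕ) : ℝ) = n - 1 := by
        rw [Nat.cast_sub hn]; simp
      push_cast
      rw [this]; ring
    have h3 : 2 * (n - 1) + 1 + 1 = 2 * n := by omega
    rw [h1, h3]
    have h2 : (n : ℂ) ≠ 0 := by
      exact_mod_cast (by omega : n ≠ 0)
    push_cast
    rw [zero_pow (by omega)]
    field_simp
    ring
  · intro r hr
    simp only
    rw [havg r hr]
    push_cast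
    ring

lemma top_bound {n : ℕ} (hn : 1 ≤ n) {a : ℂ} {R : ℝ} (hR : 0 < R)
    (hsub : closedBall a R ⊆ ball (0 : ℂ) 1) {c : ℕ → ℂ → ℂ}
    (hc : ∀ j < n, DifferentiableOn ℂ (c j) (ball 0 1)) :
    ‖c (n - 1) a‖ ≤ (n * R ^ (n - 1) / (π * R ^ (2 * n))) *
      ∫ z in ball a R, ‖∑ j ∈ Finset.range n, c j z * (conj z) ^ j‖ := by
  have h1 := top_formula hn hR hsub hc
  have hcont : ContinuousOn (fun z => ∑ j ∈ Finset.range n, c j z * (conj z) ^ j)
      (closedBall a R) := by
    apply continuousOn_finsetSum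
    intro j hj
    exact (((hc j (Finset.mem_range.1 hj)).continuousOn).mono hsub).mul (by fun_prop)
  have hi : IntegrableOn (fun z => ∑ j ∈ Finset.range n, c j z * (conj z) ^ j) (ball a R) :=
    (hcont.integrableOn_compact (isCompact_closedBall a R)).mono_set ball_subset_closedBall
  have h2 : ‖∫ z in ball a R, (∑ j ∈ Finset.range n, c j z * (conj z) ^ j) * (z - a) ^ (n - 1)‖
      ≤ ∫ z in ball a R, R ^ (n - 1) * ‖∑ j ∈ Finset.range n, c j z * (conj z) ^ j‖ := by
    apply (norm_integral_le_integral_norm _).trans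
    apply setIntegral_mono_on₀
    · apply Integrable.norm
      apply ((hcont.mul (by fun_prop)).integrableOn_compact
        (isCompact_closedBall a R)).mono_set ball_subset_closedBall
    · exact hi.norm.const_mul _
    · exact measurableSet_ball.nullMeasurableSet
    · intro z hz
      rw [norm_mul, norm_pow, mul_comm]
      apply mul_le_mul_of_nonneg_right _ (norm_nonneg _)
      apply pow_le_pow_left₀ (norm_nonneg _)
      exact (mem_ball_iff_norm.1 hz).le
  rw [h1, integral_const_mul] at h2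
  have hn' : (0 : ℝ) < n := by exact_mod_cast hn
  have hpos : 0 < π * R ^ (2 * n) := by positivity
  have h3 : ‖((π : ℂ) * R ^ (2 * n) / n) * c (n - 1) a‖ =
      (π * R ^ (2 * n) / n) * ‖c (n - 1) a‖ := by
    rw [norm_mul]
    congr 1
    have : ((π : ℂ) * R ^ (2 * n) / n) = ((π * R ^ (2 * n) / n : ℝ) : ℂ) := by push_cast; ring
    rw [this, Complex.norm_real, Real.norm_eq_abs, abs_of_pos (by positivity)]
  rw [h3] at h2
  rw [div_mul_eq_mul_div, le_div_iff₀ hpos]
  rw [div_mul_eq_mul_div, div_le_iff₀ hn'] at h2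
  nlinarith [h2]

lemma unif_cauchy (n : ℕ) : ∀ (c : ℕ → ℕ → ℂ → ℂ)
    (_ : ∀ m, ∀ j < n, DifferentiableOn ℂ (c m j) (ball 0 1))
    (_ : ∀ ρ : ℝ, ρ < 1 → ∀ ε > 0, ∃ N, ∀ m ≥ N, ∀ m' ≥ N,
      ∫ z in ball (0 : ℂ) ρ, ‖∑ j ∈ Finset.range n, (c m j z - c m' j z) * (conj z) ^ j‖ ≤ ε),
    ∀ j < n, ∀ ρ : ℝ, ρ < 1 → ∀ ε > 0, ∃ N, ∀ m ≥ N, ∀ m' ≥ N, ∀ z ∈ ball (0 : ℂ) ρ,
      ‖c m j z - c m' j z‖ ≤ ε := by
  induction n with
  | zero => intro c _ _ j hj; omega
  | succ n ih =>
    intro c hc hL
    have hcontn : ∀ k ≤ n + 1, ∀ m m' : ℕ, ∀ ρ : ℝ, ρ < 1 →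
        IntegrableOn (fun z => ∑ j ∈ Finset.range k, (c m j z - c m' j z) * (conj z) ^ j)
          (ball (0 : ℂ) ρ) := by
      intro k hk m m' ρ hρ
      have : ContinuousOn (fun z => ∑ j ∈ Finset.range k, (c m j z - c m' j z) * (conj z) ^ j)
          (closedBall (0 : ℂ) ρ) := by
        apply ContinuousOn.mono _ (closedBall_subset_ball hρ)
        apply continuousOn_finsetSum
        intro j hj
        have hj' : j < n + 1 := lt_of_lt_of_le (Finset.mem_range.1 hj) hk
        exact (((hc m j hj').continuousOn).sub (hc m' j hj').continuousOn).mul (by fun_prop)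
      exact (this.integrableOn_compact (isCompact_closedBall 0 ρ)).mono_set
        ball_subset_closedBall
    have htop : ∀ ρ : ℝ, ρ < 1 → ∀ ε > 0, ∃ N, ∀ m ≥ N, ∀ m' ≥ N, ∀ z ∈ ball (0 : ℂ) ρ,
        ‖c m n z - c m' n z‖ ≤ ε := by
      intro ρ hρ ε hε
      set R := (1 - ρ) / 2 with hRdef
      have hR : 0 < R := by rw [hRdef]; linarith
      set K := (((n + 1 : ℕ) : ℝ) * R ^ (n + 1 - 1) / (π * R ^ (2 * (n + 1)))) with hK
      have hKpos : 0 < K := by
        rw [hK]; positivity
      obtain ⟨N, hN⟩ := hL (ρ + R) (by rw [hRdef]; linarith) (ε / K) (by positivity)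
      refine ⟨N, fun m hm m' hm' a ha => ?_⟩
      have ha' : ‖a‖ < ρ := by simpa using ha
      have hsub : closedBall a R ⊆ ball (0 : ℂ) 1 := by
        intro z hz
        rw [mem_closedBall, dist_eq_norm] at hz
        rw [mem_ball_zero_iff]
        calc ‖z‖ = ‖(z - a) + a‖ := by ring_nf
          _ ≤ ‖z - a‖ + ‖a‖ := norm_add_le _ _
          _ < R + ρ := by linarith
          _ ≤ 1 := by rw [hRdef]; linarith
      have hsub2 : ball a R ⊆ ball (0 : ℂ) (ρ + R) := by
        intro z hz
        rw [mem_ball, dist_eq_norm] at hz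
        rw [mem_ball_zero_iff]
        calc ‖z‖ = ‖(z - a) + a‖ := by ring_nf
          _ ≤ ‖z - a‖ + ‖a‖ := norm_add_le _ _
          _ < ρ + R := by linarith
      have h1 := top_bound (n := n + 1) (by omega) hR hsub
        (c := fun j z => c m j z - c m' j z)
        (fun j hj => (hc m j hj).sub (hc m' j hj))
      simp only [Nat.add_sub_cancel] at h1
      calc ‖c m n a - c m' n a‖ ≤ K * ∫ z in ball a R,
            ‖∑ j ∈ Finset.range (n + 1), (c m j z - c m' j z) * (conj z) ^ j‖ := by
              simpa [hK] using h1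
        _ ≤ K * ∫ z in ball (0 : ℂ) (ρ + R),
            ‖∑ j ∈ Finset.range (n + 1), (c m j z - c m' j z) * (conj z) ^ j‖ := by
              apply mul_le_mul_of_nonneg_left _ hKpos.le
              apply setIntegral_mono_set
              · exact (hcontn (n + 1) le_rfl m m' (ρ + R) (by rw [hRdef]; linarith)).norm
              · exact Eventually.of_forall fun z => norm_nonneg _
              · exact Eventually.of_forall hsub2
        _ ≤ K * (ε / K) := mul_le_mul_of_nonneg_left (hN m hm m' hm') hKpos.le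
        _ = ε := by field_simp
    have hlow := ih c (fun m j hj => hc m j (by omega)) (by
      intro ρ hρ ε hε
      obtain ⟨N1, hN1⟩ := hL ρ hρ (ε / 2) (by positivity)
      obtain ⟨N2, hN2⟩ := htop ρ hρ (ε / (2 * π)) (by positivity)
      refine ⟨max N1 N2, fun m hm m' hm' => ?_⟩
      have hm1 : N1 ≤ m := le_trans (le_max_left _ _) hm
      have hm2 : N2 ≤ m := le_trans (le_max_right _ _) hm
      have hm1' : N1 ≤ m' := le_trans (le_max_left _ _) hm'
      have hm2' : N2 ≤ m' := le_trans (le_max_right _ _) hm'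
      have hvol : volume.real (ball (0 : ℂ) ρ) ≤ π := by
        by_cases h0 : 0 ≤ ρ
        · rw [Measure.real, Complex.volume_ball]
          simp only [ENNReal.toReal_mul, ENNReal.toReal_pow, ENNReal.toReal_ofReal h0,
            ENNReal.coe_toReal, NNReal.coe_real_pi]
          have h2 : ρ ^ 2 ≤ 1 := pow_le_one₀ h0 hρ.le
          exact mul_le_of_le_one_left Real.pi_pos.le h2
        · rw [ball_eq_empty.2 (by linarith)]
          simp [Real.pi_pos.le]
      calc ∫ z in ball (0 : ℂ) ρ, ‖∑ j ∈ Finset.range n, (c m j z - c m' j z) * (conj z) ^ j‖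
          ≤ ∫ z in ball (0 : ℂ) ρ, (‖∑ j ∈ Finset.range (n + 1),
              (c m j z - c m' j z) * (conj z) ^ j‖ + ε / (2 * π)) := by
            apply setIntegral_mono_on₀
            · exact (hcontn n (by omega) m m' ρ hρ).norm
            · exact (hcontn (n + 1) le_rfl m m' ρ hρ).norm.add
                (integrableOn_const measure_ball_lt_top.ne enorm_ne_top)
            · exact measurableSet_ball.nullMeasurableSet
            · intro z hz
              have hz1 : ‖z‖ < 1 := by
                have : ‖z‖ < ρ := by simpa using hz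
                linarith
              have e : ∑ j ∈ Finset.range n, (c m j z - c m' j z) * (conj z) ^ j =
                  ∑ j ∈ Finset.range (n + 1), (c m j z - c m' j z) * (conj z) ^ j -
                    (c m n z - c m' n z) * (conj z) ^ n := by
                rw [Finset.sum_range_succ]; ring
              rw [e]
              apply (norm_sub_le _ _).trans
              gcongr
              rw [norm_mul, norm_pow, RCLike.norm_conj]
              calc ‖c m n z - c m' n z‖ * ‖z‖ ^ n ≤ ‖c m n z - c m' n z‖ * 1 := by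
                    apply mul_le_mul_of_nonneg_left _ (norm_nonneg _)
                    exact pow_le_one₀ (norm_nonneg _) hz1.le
                _ ≤ _ := by
                    rw [mul_one]
                    exact hN2 m hm2 m' hm2' z hz
        _ = (∫ z in ball (0 : ℂ) ρ, ‖∑ j ∈ Finset.range (n + 1),
              (c m j z - c m' j z) * (conj z) ^ j‖) +
              volume.real (ball (0 : ℂ) ρ) * (ε / (2 * π)) := by
            rw [integral_add (hcontn (n + 1) le_rfl m m' ρ hρ).norm]
            · congr 1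
              rw [setIntegral_const, smul_eq_mul]
            · exact integrableOn_const measure_ball_lt_top.ne enorm_ne_top
        _ ≤ ε / 2 + π * (ε / (2 * π)) := by
            apply add_le_add (hN1 m hm1 m' hm1')
            exact mul_le_mul_of_nonneg_right hvol (by positivity)
        _ = ε := by field_simp; ring)
    intro j hj
    rcases Nat.lt_succ_iff_lt_or_eq.1 hj with h | h
    · exact hlow j h
    · subst h; exact htop

lemma exists_limit (c : ℕ → ℂ → ℂ) (hd : ∀ m, DifferentiableOn ℂ (c m) (ball 0 1))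
    (hc : ∀ ρ : ℝ, ρ < 1 → ∀ ε > 0, ∃ N, ∀ m ≥ N, ∀ m' ≥ N, ∀ z ∈ ball (0 : ℂ) ρ,
      ‖c m z - c m' z‖ ≤ ε) :
    ∃ C : ℂ → ℂ, DifferentiableOn ℂ C (ball 0 1) ∧
      ∀ z ∈ ball (0 : ℂ) 1, Tendsto (fun m => c m z) atTop (𝓝 (C z)) := by
  have hpt : ∀ z ∈ ball (0 : ℂ) 1, ∃ w, Tendsto (fun m => c m z) atTop (𝓝 w) := by
    intro z hz
    have hz' : ‖z‖ < 1 := by simpa using hz
    apply cauchySeq_tendsto_of_complete
    rw [Metric.cauchySeq_iff]
    intro ε hε
    obtain ⟨N, hN⟩ := hc ((‖z‖ + 1) / 2) (by linarith) (ε / 2) (by positivity)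
    refine ⟨N, fun m hm m' hm' => ?_⟩
    rw [dist_eq_norm]
    have := hN m hm m' hm' z (by rw [mem_ball_zero_iff]; linarith)
    linarith
  choose! C hC using hpt
  refine ⟨C, ?_, hC⟩
  have hlu : TendstoLocallyUniformlyOn c C atTop (ball 0 1) := by
    rw [tendstoLocallyUniformlyOn_iff_forall_isCompact isOpen_ball]
    intro K hK hKc
    rw [Metric.tendstoUniformlyOn_iff]
    intro ε hε
    obtain ⟨ρ, hρ, hKρ⟩ : ∃ ρ : ℝ, ρ < 1 ∧ K ⊆ ball (0 : ℂ) ρ := by
      obtain ⟨r, hr0, hr⟩ := exists_lt_subset_ball hKc.isClosed (by simpa using hK)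
      exact ⟨r, hr0, hr⟩
    obtain ⟨N, hN⟩ := hc ρ hρ (ε / 2) (by positivity)
    filter_upwards [eventually_ge_atTop N] with m hm z hz
    rw [dist_eq_norm]
    have h1 : Tendsto (fun m' => ‖c m' z - c m z‖) atTop (𝓝 ‖C z - c m z‖) :=
      ((hC z (hK hz)).sub_const _).norm
    have h2 : ‖C z - c m z‖ ≤ ε / 2 := by
      apply le_of_tendsto h1
      filter_upwards [eventually_ge_atTop N] with m' hm'
      exact hN m' hm' m hm z (hKρ hz)
    linarith
  exact hlu.differentiableOn (Eventually.of_forall hd) isOpen_ball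

instance : IsProbabilityMeasure dA := by
  constructor
  rw [dA, Measure.smul_apply, Measure.restrict_apply_univ, Complex.volume_ball]
  have : (ENNReal.ofReal π) = (NNReal.pi : ℝ≥0∞) := by
    rw [← NNReal.coe_real_pi, ENNReal.ofReal_coe_nnreal]
  rw [this]
  simp only [smul_eq_mul, ENNReal.ofReal_one, one_pow, one_mul]
  exact ENNReal.inv_mul_cancel (by simpa using NNReal.pi_ne_zero) ENNReal.coe_ne_top

lemma ae_dA_iff {p : ℂ → Prop} : (∀ᵐ z ∂dA, p z) ↔ ∀ᵐ z ∂(volume.restrict (ball (0 : ℂ) 1)), p z := by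
  rw [dA]
  apply Measure.ae_ennreal_smul_measure_iff
  exact ENNReal.inv_ne_zero.2 ENNReal.ofReal_ne_top

lemma ae_dA_mem : ∀ᵐ z ∂dA, z ∈ ball (0 : ℂ) 1 := by
  rw [ae_dA_iff]
  exact ae_restrict_mem measurableSet_ball

lemma integral_dA {E : Type*} [NormedAddCommGroup E] [NormedSpace ℝ E] (f : ℂ → E) :
    ∫ z, f z ∂dA = π⁻¹ • ∫ z in ball (0 : ℂ) 1, f z := by
  rw [dA, integral_smul_measure, ENNReal.toReal_inv, ENNReal.toReal_ofReal Real.pi_pos.le]

lemma integrable_dA_iff {E : Type*} [NormedAddCommGroup E] (f : ℂ → E) :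
    Integrable f dA ↔ IntegrableOn f (ball (0 : ℂ) 1) := by
  rw [dA, IntegrableOn, integrable_smul_measure]
  · exact ENNReal.inv_ne_zero.2 ENNReal.ofReal_ne_top
  · exact ENNReal.inv_ne_top.2 (ENNReal.ofReal_pos.2 Real.pi_pos).ne'

lemma integral_norm_le {g : Lp ℂ 2 dA} {G : ℂ → ℂ} (hG : g =ᵐ[dA] G) {ρ : ℝ} (hρ : ρ < 1) :
    ∫ z in ball (0 : ℂ) ρ, ‖G z‖ ≤ π * ‖g‖ := by
  have hg1 : MemLp g 1 dA := (Lp.memLp g).mono_exponent (by norm_num)
  have hg : Integrable g dA := memLp_one_iff_integrable.1 hg1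
  have hGi : Integrable G dA := hg.congr hG
  have h1 : ∫ z in ball (0 : ℂ) ρ, ‖G z‖ ≤ ∫ z in ball (0 : ℂ) 1, ‖G z‖ := by
    apply setIntegral_mono_set
    · exact ((integrable_dA_iff G).1 hGi).norm
    · exact Eventually.of_forall fun z => norm_nonneg _
    · exact Eventually.of_forall (ball_subset_ball hρ.le)
  have h2 : ∫ z in ball (0 : ℂ) 1, ‖G z‖ = π * ∫ z, ‖G z‖ ∂dA := by
    rw [integral_dA, smul_eq_mul]
    have := Real.pi_ne_zero
    field_simp
  have h3 : ∫ z, ‖G z‖ ∂dA = ∫ z, ‖g z‖ ∂dA := by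
    apply integral_congr_ae
    filter_upwards [hG] with z hz
    rw [hz]
  have h4 : ∫ z, ‖g z‖ ∂dA ≤ ‖g‖ := by
    rw [integral_norm_eq_lintegral_enorm hg.aestronglyMeasurable, Lp.norm_def,
      ← eLpNorm_one_eq_lintegral_enorm]
    apply ENNReal.toReal_mono (Lp.eLpNorm_ne_top g)
    exact eLpNorm_le_eLpNorm_of_exponent_le (by norm_num) hg.aestronglyMeasurable
  calc ∫ z in ball (0 : ℂ) ρ, ‖G z‖ ≤ π * ∫ z, ‖G z‖ ∂dA := h1.trans h2.le
    _ ≤ π * ‖g‖ := by
      rw [h3]
      exact mul_le_mul_of_nonneg_left h4 Real.pi_pos.le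

/-- Auxiliary: the `n`-analytic Bergman space `A²_n`, as a submodule of `L²(dA)`. -/
noncomputable def bergman (n : ℕ) : Submodule ℂ (Lp ℂ 2 dA) where
  carrier := {f | ∃ h : ℂ → ℂ, IsPolyanalytic n h ∧ f =ᵐ[dA] h}
  add_mem' := by
    rintro f g ⟨h, ⟨c, hc, hh⟩, hf⟩ ⟨k, ⟨d, hd, hk⟩, hg⟩
    refine ⟨fun z => h z + k z, ⟨fun j z => c j z + d j z, fun j hj => (hc j hj).add (hd j hj), ?_⟩, ?_⟩
    · intro z hz
      simp only [hh z hz, hk z hz, ← Finset.sum_add_distrib, add_mul]
    · filter_upwards [Lp.coeFn_add f g, hf, hg] with z h1 h2 h3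
      rw [h1, Pi.add_apply, h2, h3]
  zero_mem' := by
    refine ⟨fun _ => 0, ⟨fun _ _ => 0, fun _ _ => differentiableOn_const _, ?_⟩, ?_⟩
    · intro z _; simp
    · filter_upwards [Lp.coeFn_zero ℂ 2 dA] with z h1
      rw [h1]; rfl
  smul_mem' := by
    rintro a f ⟨h, ⟨c, hc, hh⟩, hf⟩
    refine ⟨fun z => a * h z, ⟨fun j z => a * c j z, fun j hj => (hc j hj).const_mul a, ?_⟩, ?_⟩
    · intro z hz
      simp only [hh z hz, Finset.mul_sum, mul_assoc]
    · filter_upwards [Lp.coeFn_smul a f, hf] with z h1 h2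
      rw [h1, Pi.smul_apply, h2, smul_eq_mul]


/-- `A²_n` is a closed subspace of `L²(dA)`. -/
theorem isClosed_bergman (n : ℕ) : IsClosed (bergman n : Set (Lp ℂ 2 dA)) := by
  apply IsSeqClosed.isClosed
  intro x y hx hxy
  choose h hh using hx
  choose c hc using fun m => (hh m).1
  have hL : ∀ ρ : ℝ, ρ < 1 → ∀ ε > 0, ∃ N, ∀ m ≥ N, ∀ m' ≥ N,
      ∫ z in ball (0 : ℂ) ρ, ‖∑ j ∈ Finset.range n, (c m j z - c m' j z) * (conj z) ^ j‖ ≤ ε := by
    intro ρ hρ ε hε
    have hcs := hxy.cauchySeq
    rw [Metric.cauchySeq_iff] at hcs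
    obtain ⟨N, hN⟩ := hcs (ε / π) (by positivity)
    refine ⟨N, fun m hm m' hm' => ?_⟩
    have h1 : (x m - x m' : Lp ℂ 2 dA) =ᵐ[dA]
        fun z => ∑ j ∈ Finset.range n, (c m j z - c m' j z) * (conj z) ^ j := by
      filter_upwards [Lp.coeFn_sub (x m) (x m'), (hh m).2, (hh m').2, ae_dA_mem] with z e1 e2 e3 e4
      rw [e1, Pi.sub_apply, e2, e3, (hc m).2 z e4, (hc m').2 z e4, ← Finset.sum_sub_distrib]
      apply Finset.sum_congr rfl
      intro j _
      ring
    have h2 := integral_norm_le h1 hρ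
    have h3 : ‖x m - x m'‖ < ε / π := by
      rw [← dist_eq_norm]; exact hN m hm m' hm'
    calc _ ≤ π * ‖x m - x m'‖ := h2
      _ ≤ π * (ε / π) := mul_le_mul_of_nonneg_left h3.le Real.pi_pos.le
      _ = ε := by field_simp
  have hU := unif_cauchy n c (fun m => (hc m).1) hL
  have hlim : ∀ j, ∃ C : ℂ → ℂ, j < n → (DifferentiableOn ℂ C (ball 0 1) ∧
      ∀ z ∈ ball (0 : ℂ) 1, Tendsto (fun m => c m j z) atTop (𝓝 (C z))) := by
    intro j
    by_cases hj : j < n
    · obtain ⟨C, hC⟩ := exists_limit (fun m => c m j) (fun m => (hc m).1 j hj) (hU j hj)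
      exact ⟨C, fun _ => hC⟩
    · exact ⟨0, fun h => absurd h hj⟩
  choose C hC using hlim
  refine ⟨fun z => ∑ j ∈ Finset.range n, C j z * (conj z) ^ j,
    ⟨C, fun j hj => (hC j hj).1, fun z _ => rfl⟩, ?_⟩
  obtain ⟨ns, hns, hae⟩ := (tendstoInMeasure_of_tendsto_Lp hxy).exists_seq_tendsto_ae
  have hall : ∀ᵐ z ∂dA, ∀ m, x m z = h m z := by
    rw [ae_all_iff]
    intro m
    exact (hh m).2
  filter_upwards [hae, hall, ae_dA_mem] with z h1 h2 h3
  refine tendsto_nhds_unique h1 ?_
  have h4 : Tendsto (fun m => ∑ j ∈ Finset.range n, c m j z * (conj z) ^ j) atTop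
      (𝓝 (∑ j ∈ Finset.range n, C j z * (conj z) ^ j)) := by
    apply tendsto_finsetSum
    intro j hj
    exact ((hC j (Finset.mem_range.1 hj)).2 z h3).mul_const _
  refine (h4.comp hns.tendsto_atTop).congr fun k => ?_
  simp only [Function.comp]
  rw [h2, (hc (ns k)).2 z h3]

open InnerProductSpace in
/-- A complex valued harmonic function on the disc is `f + conj g` with `f, g` holomorphic. -/
lemma harmonic_decomp {u : ℂ → ℂ} (hu : HarmonicOnNhd u (ball (0 : ℂ) 1)) :
    ∃ f g : ℂ → ℂ, DifferentiableOn ℂ f (ball 0 1) ∧ DifferentiableOn ℂ g (ball 0 1) ∧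
      ∀ z ∈ ball (0 : ℂ) 1, u z = f z + conj (g z) := by
  obtain ⟨F1, hF1, h1⟩ := (hu.comp_CLM reCLM).exists_analyticOnNhd_ball_re_eq
  obtain ⟨F2, hF2, h2⟩ := (hu.comp_CLM imCLM).exists_analyticOnNhd_ball_re_eq
  have hd1 := hF1.differentiableOn
  have hd2 := hF2.differentiableOn
  refine ⟨fun z => (F1 z + I * F2 z) / 2, fun z => (F1 z - I * F2 z) / 2, ?_, ?_, ?_⟩
  · exact (hd1.add (hd2.const_mul I)).div_const 2
  · exact (hd1.sub (hd2.const_mul I)).div_const 2
  · intro z hz
    have e1 := h1 hz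
    have e2 := h2 hz
    simp only [Function.comp_apply, reCLM_apply, imCLM_apply] at e1 e2
    have e3 : conj ((F1 z - I * F2 z) / 2) = (conj (F1 z) + I * conj (F2 z)) / 2 := by
      rw [map_div₀, map_ofNat, map_sub, map_mul, Complex.conj_I]
      ring
    simp only [e3]
    apply Complex.ext
    · simp [← e1]
      ring
    · simp [← e2]
      ring

/-- area mean value property -/
lemma integral_holo {f : ℂ → ℂ} (hf : DifferentiableOn ℂ f (ball 0 1)) {R : ℝ} (hR0 : 0 ≤ R)
    (hR : R < 1) : ∫ z in ball (0 : ℂ) R, f z = π * R ^ 2 * f 0 := by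
  have hsub : closedBall (0 : ℂ) R ⊆ ball 0 1 := closedBall_subset_ball hR
  have hc : ContinuousOn f (closedBall 0 R) := hf.continuousOn.mono hsub
  rw [integral_ball_zero (hc.mono ball_subset_closedBall)
    ((hc.integrableOn_compact (isCompact_closedBall 0 R)).mono_set ball_subset_closedBall)]
  rw [setIntegral_congr_fun measurableSet_Ioo (g := fun r : ℝ => (((2 * π * r : ℝ) : ℂ)) * f 0) ?_]
  · rw [integral_mul_const, integral_complex_ofReal]
    rw [← integral_Ioc_eq_integral_Ioo, ← intervalIntegral.integral_of_le hR0,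
      intervalIntegral.integral_const_mul, integral_id]
    push_cast
    ring
  · intro r hr
    simp only
    congr 1
    apply DiffContOnCl.circleAverage
    apply DifferentiableOn.diffContOnCl
    apply hf.mono
    rw [abs_of_pos hr.1]
    exact closure_ball_subset_closedBall.trans (closedBall_subset_ball (hr.2.trans hR))

/-- If `f + conj g` is bounded on the disc then `f` is square integrable. -/
lemma integrable_sq_of_bounded {f g : ℂ → ℂ} (hf : DifferentiableOn ℂ f (ball 0 1))
    (hg : DifferentiableOn ℂ g (ball 0 1)) {C : ℝ}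
    (hC : ∀ z ∈ ball (0 : ℂ) 1, ‖f z + conj (g z)‖ ≤ C) :
    IntegrableOn (fun z => ‖f z‖ ^ 2) (ball (0 : ℂ) 1) := by
  set M : ℝ := π * C ^ 2 + 2 * π * ‖f 0 * g 0‖ with hM
  have hbd : ∀ R : ℝ, 0 ≤ R → R < 1 → ∫ z in ball (0 : ℂ) R, ‖f z‖ ^ 2 ≤ M := by
    intro R hR0 hR
    have hsub : closedBall (0 : ℂ) R ⊆ ball 0 1 := closedBall_subset_ball hR
    have hcf : ContinuousOn f (closedBall 0 R) := hf.continuousOn.mono hsub
    have hcg : ContinuousOn g (closedBall 0 R) := hg.continuousOn.mono hsub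
    have hint : ∀ F : ℂ → ℝ, ContinuousOn F (closedBall 0 R) → IntegrableOn F (ball 0 R) :=
      fun F hF => (hF.integrableOn_compact (isCompact_closedBall 0 R)).mono_set
        ball_subset_closedBall
    have h1 : ∀ z ∈ ball (0 : ℂ) R, ‖f z‖ ^ 2 ≤ C ^ 2 - 2 * (f z * g z).re := by
      intro z hz
      have hz1 : z ∈ ball (0 : ℂ) 1 := ball_subset_ball hR.le hz
      have e : ‖f z + conj (g z)‖ ^ 2 = ‖f z‖ ^ 2 + ‖g z‖ ^ 2 + 2 * (f z * g z).re := by
        rw [← Complex.normSq_eq_norm_sq, Complex.normSq_add, Complex.normSq_conj,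
          Complex.normSq_eq_norm_sq, Complex.normSq_eq_norm_sq, Complex.conj_conj]
      have h2 : ‖f z + conj (g z)‖ ^ 2 ≤ C ^ 2 := by
        apply pow_le_pow_left₀ (norm_nonneg _) (hC z hz1)
      nlinarith [sq_nonneg ‖g z‖]
    calc ∫ z in ball (0 : ℂ) R, ‖f z‖ ^ 2
        ≤ ∫ z in ball (0 : ℂ) R, (C ^ 2 - 2 * (f z * g z).re) := by
          apply setIntegral_mono_on₀
          · exact hint _ (by fun_prop)
          · apply hint
            apply ContinuousOn.sub continuousOn_const
            apply ContinuousOn.mul continuousOn_const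
            exact Complex.continuous_re.comp_continuousOn (hcf.mul hcg)
          · exact measurableSet_ball.nullMeasurableSet
          · exact h1
      _ = C ^ 2 * volume.real (ball (0 : ℂ) R) - 2 * (π * R ^ 2 * (f 0 * g 0).re) := by
          rw [integral_sub]
          · rw [setIntegral_const, smul_eq_mul, integral_const_mul]
            have h3 : ∫ z in ball (0 : ℂ) R, (f z * g z).re =
                (∫ z in ball (0 : ℂ) R, f z * g z).re := by
              have hi : IntegrableOn (fun z => f z * g z) (ball (0 : ℂ) R) :=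
                ((hcf.mul hcg).integrableOn_compact (isCompact_closedBall 0 R)).mono_set
                  ball_subset_closedBall
              have := integral_re hi
              simpa using this
            have h3' := integral_holo (f := fun z => f z * g z) (hf.fun_mul hg) hR0 hR
            rw [h3, h3']
            have h4 : ((π : ℂ) * R ^ 2 * (f 0 * g 0)).re = π * R ^ 2 * (f 0 * g 0).re := by
              have : ((π : ℂ) * R ^ 2) = ((π * R ^ 2 : ℝ) : ℂ) := by push_cast; ring
              rw [this, Complex.re_ofReal_mul]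
            rw [h4]
            ring
          · exact hint _ continuousOn_const
          · apply hint
            apply ContinuousOn.mul continuousOn_const
            exact Complex.continuous_re.comp_continuousOn (hcf.mul hcg)
      _ ≤ M := by
          have hvol : volume.real (ball (0 : ℂ) R) = R ^ 2 * π := by
            rw [Measure.real, Complex.volume_ball]
            simp only [ENNReal.toReal_mul, ENNReal.toReal_pow, ENNReal.toReal_ofReal hR0,
              ENNReal.coe_toReal, NNReal.coe_real_pi]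
          have hR2 : R ^ 2 ≤ 1 := pow_le_one₀ hR0 hR.le
          have h5 : -(f 0 * g 0).re ≤ ‖f 0 * g 0‖ :=
            (neg_le_abs _).trans (Complex.abs_re_le_norm _)
          have h6 : 0 ≤ R ^ 2 := sq_nonneg R
          rw [hvol, hM]
          have h7 : C ^ 2 * (R ^ 2 * π) ≤ π * C ^ 2 := by
            have : C ^ 2 * R ^ 2 ≤ C ^ 2 * 1 := mul_le_mul_of_nonneg_left hR2 (sq_nonneg C)
            nlinarith [Real.pi_pos]
          have h8 : -(2 * (π * R ^ 2 * (f 0 * g 0).re)) ≤ 2 * π * ‖f 0 * g 0‖ := by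
            have : R ^ 2 * (-(f 0 * g 0).re) ≤ 1 * ‖f 0 * g 0‖ := by
              calc R ^ 2 * (-(f 0 * g 0).re) ≤ R ^ 2 * ‖f 0 * g 0‖ :=
                    mul_le_mul_of_nonneg_left h5 h6
                _ ≤ 1 * ‖f 0 * g 0‖ := mul_le_mul_of_nonneg_right hR2 (norm_nonneg _)
            nlinarith [Real.pi_pos]
          linarith
  have hcov : AECover (volume.restrict (ball (0 : ℂ) 1)) atTop
      (fun k : ℕ => ball (0 : ℂ) (1 - 1 / ((k : ℝ) + 1))) := by
    constructor
    · filter_upwards [ae_restrict_mem measurableSet_ball] with z hz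
      have hz' : ‖z‖ < 1 := by simpa using hz
      have : Tendsto (fun k : ℕ => 1 - 1 / ((k : ℝ) + 1)) atTop (𝓝 (1 - 0)) :=
        tendsto_const_nhds.sub tendsto_one_div_add_atTop_nhds_zero_nat
      rw [sub_zero] at this
      filter_upwards [this.eventually (lt_mem_nhds hz')] with k hk
      simpa using hk
    · intro k; exact measurableSet_ball
  have hk0 : ∀ k : ℕ, 0 ≤ 1 - 1 / ((k : ℝ) + 1) := by
    intro k
    have : 1 / ((k : ℝ) + 1) ≤ 1 := by
      rw [div_le_one (by positivity)]
      linarith [(Nat.cast_nonneg k : (0 : ℝ) ≤ k)]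
    linarith
  have hk1 : ∀ k : ℕ, 1 - 1 / ((k : ℝ) + 1) < 1 := by
    intro k
    have : 0 < 1 / ((k : ℝ) + 1) := by positivity
    linarith
  apply hcov.integrable_of_integral_norm_bounded M
  · intro k
    rw [IntegrableOn, Measure.restrict_restrict measurableSet_ball,
      inter_eq_left.2 (ball_subset_ball (hk1 k).le)]
    have : ContinuousOn (fun z => ‖f z‖ ^ 2) (closedBall 0 (1 - 1 / ((k : ℝ) + 1))) :=
      (hf.continuousOn.mono (closedBall_subset_ball (hk1 k))).norm.pow 2
    exact (this.integrableOn_compact (isCompact_closedBall _ _)).mono_set ball_subset_closedBall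
  · apply Eventually.of_forall
    intro k
    rw [Measure.restrict_restrict measurableSet_ball,
      inter_eq_left.2 (ball_subset_ball (hk1 k).le)]
    simp only [norm_pow, norm_norm]
    exact hbd _ (hk0 k) (hk1 k)

/-- factorisation of a non-constant holomorphic function at the origin -/
lemma exists_order {f : ℂ → ℂ} (hf : DifferentiableOn ℂ f (ball 0 1))
    (hne : ∃ z ∈ ball (0 : ℂ) 1, f z ≠ f 0) :
    ∃ (j : ℕ) (p : ℂ → ℂ), 1 ≤ j ∧ DifferentiableOn ℂ p (ball 0 1) ∧ p 0 ≠ 0 ∧
      ∀ z ∈ ball (0 : ℂ) 1, f z = f 0 + z ^ j * p z := by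
  set F : ℂ → ℂ := fun z => f z - f 0 with hF
  have hFd : DifferentiableOn ℂ F (ball 0 1) := hf.sub_const _
  have hFan : AnalyticOnNhd ℂ F (ball 0 1) := hFd.analyticOnNhd isOpen_ball
  have h0 : (0 : ℂ) ∈ ball (0 : ℂ) 1 := by simp
  have hnot : ¬ ∀ᶠ z in 𝓝 (0 : ℂ), F z = 0 := by
    intro h
    obtain ⟨z, hz, hzne⟩ := hne
    have := hFan.eqOn_zero_of_preconnected_of_eventuallyEq_zero
      (convex_ball (0 : ℂ) 1).isPreconnected h0 h hz
    apply hzne
    simpa [hF, sub_eq_zero] using this
  obtain ⟨j, g, hg, hg0, hgF⟩ :=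
    ((hFan 0 h0).exists_eventuallyEq_pow_smul_nonzero_iff).2 hnot
  simp only [sub_zero, smul_eq_mul] at hgF
  have hF0 : F 0 = 0 := by simp [hF]
  have hj : 1 ≤ j := by
    by_contra hj
    have : j = 0 := by omega
    subst this
    have := hgF.self_of_nhds
    simp only [pow_zero, one_mul] at this
    exact hg0 (by rw [← this, hF0])
  refine ⟨j, fun z => if z = 0 then g 0 else F z / z ^ j, hj, ?_, by simpa using hg0, ?_⟩
  · intro z hz
    by_cases hz0 : z = 0
    · subst hz0
      have : (fun z => if z = 0 then g 0 else F z / z ^ j) =ᶠ[𝓝 0] g := by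
        filter_upwards [hgF] with w hw
        by_cases hw0 : w = 0
        · simp [hw0]
        · simp only [hw0, if_false]
          rw [hw]
          field_simp
      exact (hg.differentiableAt.congr_of_eventuallyEq this).differentiableWithinAt
    · have : (fun z => if z = 0 then g 0 else F z / z ^ j) =ᶠ[𝓝 z] fun z => F z / z ^ j := by
        filter_upwards [isOpen_ne.mem_nhds hz0] with w hw
        simp [hw]
      have h2 : DifferentiableAt ℂ (fun z => F z / z ^ j) z := by
        apply DifferentiableAt.div (hFd.differentiableAt (isOpen_ball.mem_nhds hz)) (by fun_prop)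
        exact pow_ne_zero j hz0
      exact (h2.congr_of_eventuallyEq this).differentiableWithinAt
  · intro z hz
    by_cases hz0 : z = 0
    · subst hz0
      simp [show j ≠ 0 by omega]
    · simp only [hz0, if_false, hF]
      field_simp
      ring


instance (n : ℕ) : CompleteSpace (bergman n) := (isClosed_bergman n).completeSpace_coe

lemma memLp_mul {f : ℂ → ℂ} (hf : MemLp f ∞ dA) {h : ℂ → ℂ} (hh : MemLp h 2 dA) :
    MemLp (fun z => f z * h z) 2 dA := hh.mul' hf

lemma memLp_top_of_cont {f : ℂ → ℂ} (hf : ContinuousOn f (ball 0 1)) {C : ℝ}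
    (hC : ∀ z ∈ ball (0 : ℂ) 1, ‖f z‖ ≤ C) : MemLp f ∞ dA := by
  apply memLp_top_of_bound _ C
  · filter_upwards [ae_dA_mem] with z hz using hC z hz
  · rw [dA]
    exact (hf.aestronglyMeasurable measurableSet_ball).smul_measure _

lemma aesm_of_cont {f : ℂ → ℂ} (hf : ContinuousOn f (ball 0 1)) :
    AEStronglyMeasurable f dA := by
  rw [dA]
  exact (hf.aestronglyMeasurable measurableSet_ball).smul_measure _

lemma memLp_mono_top (a b : ℕ) : MemLp (fun z : ℂ => z ^ a * (conj z) ^ b) ∞ dA := by
  apply memLp_top_of_cont (C := 1) (by fun_prop)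
  intro z hz
  have hz' : ‖z‖ ≤ 1 := (mem_ball_zero_iff.1 hz).le
  rw [norm_mul, norm_pow, norm_pow, RCLike.norm_conj, ← pow_add]
  exact pow_le_one₀ (norm_nonneg _) hz'

lemma memLp_top_two {f : ℂ → ℂ} (hf : MemLp f ∞ dA) : MemLp f 2 dA :=
  hf.mono_exponent le_top

lemma memLp_conj {f : ℂ → ℂ} (hf : MemLp f 2 dA) : MemLp (fun z => conj (f z)) 2 dA := hf.star

lemma integrable_mul_two {f g : ℂ → ℂ} (hf : MemLp f 2 dA) (hg : MemLp g 2 dA) :
    Integrable (fun z => f z * g z) dA := hf.integrable_mul hg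

/-- square integrability of the analytic component of a bounded harmonic function -/
lemma memLp_of_bounded {f g : ℂ → ℂ} (hf : DifferentiableOn ℂ f (ball 0 1))
    (hg : DifferentiableOn ℂ g (ball 0 1)) {C : ℝ}
    (hC : ∀ z ∈ ball (0 : ℂ) 1, ‖f z + conj (g z)‖ ≤ C) : MemLp f 2 dA := by
  rw [memLp_two_iff_integrable_sq_norm (aesm_of_cont hf.continuousOn), integrable_dA_iff]
  exact integrable_sq_of_bounded hf hg hC

lemma inner_coe (h : Lp ℂ 2 dA) (w : Lp ℂ 2 dA) :
    ⟪w, h⟫_ℂ = ∫ z, conj (w z) * h z ∂dA := by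
  rw [L2.inner_def]
  apply integral_congr_ae
  filter_upwards with z
  rw [RCLike.inner_apply']

lemma IsPolyanalytic.continuousOn {n : ℕ} {h : ℂ → ℂ} (hh : IsPolyanalytic n h) :
    ContinuousOn h (ball 0 1) := by
  obtain ⟨c, hc, hz⟩ := hh
  have : ContinuousOn (fun z => ∑ j ∈ Finset.range n, c j z * (conj z) ^ j) (ball (0 : ℂ) 1) := by
    apply continuousOn_finsetSum
    intro j hj
    exact ((hc j (Finset.mem_range.1 hj)).continuousOn).mul (by fun_prop)
  exact this.congr hz

lemma IsPolyanalytic.sub {n : ℕ} {h k : ℂ → ℂ} (hh : IsPolyanalytic n h)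
    (hk : IsPolyanalytic n k) : IsPolyanalytic n (fun z => h z - k z) := by
  obtain ⟨c, hc, hz⟩ := hh
  obtain ⟨d, hd, hz'⟩ := hk
  refine ⟨fun j z => c j z - d j z, fun j hj => (hc j hj).sub (hd j hj), fun z hzz => ?_⟩
  simp only [hz z hzz, hz' z hzz, ← Finset.sum_sub_distrib, sub_mul]

/-- The orthogonal projection of a square integrable function onto `A²_n` exists. -/
theorem exists_projection (n : ℕ) {w : ℂ → ℂ} (hw : MemLp w 2 dA) :
    ∃ g, IsProjection n w g := by
  have hmem : (bergman n).starProjection hw.toLp ∈ bergman n :=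
    Submodule.starProjection_apply_mem _ _
  set P := (bergman n).starProjection hw.toLp with hP
  obtain ⟨g, hg, hgae⟩ := hmem
  have hgL : MemLp g 2 dA := (memLp_congr_ae hgae).1 (Lp.memLp P)
  refine ⟨g, ⟨hg, hgL⟩, fun k hk => ?_⟩
  have hkmem : (hk.2.toLp : Lp ℂ 2 dA) ∈ bergman n := ⟨k, hk.1, hk.2.coeFn_toLp⟩
  have h1 := (bergman n).starProjection_inner_eq_zero hw.toLp _ hkmem
  rw [← hP, inner_coe] at h1
  have h2 : ∫ z, conj ((w z - g z) * conj (k z)) ∂dA = 0 := by
    rw [← h1]
    apply integral_congr_ae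
    filter_upwards [Lp.coeFn_sub (hw.toLp : Lp ℂ 2 dA) P, hw.coeFn_toLp, hk.2.coeFn_toLp,
      hgae] with z e1 e2 e3 e4
    rw [e1, Pi.sub_apply, e2, e3, e4, map_mul, Complex.conj_conj]
  rw [integral_conj] at h2
  simpa using h2

/-- The orthogonal projection onto `A²_n` is unique as a function on the disc. -/
theorem projection_unique {n : ℕ} {w g g' : ℂ → ℂ} (hw : MemLp w 2 dA)
    (hg : IsProjection n w g) (hg' : IsProjection n w g') : EqOn g g' (ball 0 1) := by
  have hk : MemBergman n (fun z => g' z - g z) := ⟨hg'.1.1.sub hg.1.1, hg'.1.2.sub hg.1.2⟩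
  have h1 := hg.2 _ hk
  have h2 := hg'.2 _ hk
  have hi1 : Integrable (fun z => (w z - g z) * conj (g' z - g z)) dA :=
    integrable_mul_two (hw.sub hg.1.2) (memLp_conj hk.2)
  have hi2 : Integrable (fun z => (w z - g' z) * conj (g' z - g z)) dA :=
    integrable_mul_two (hw.sub hg'.1.2) (memLp_conj hk.2)
  have h3 : ∫ z, ((‖g' z - g z‖ ^ 2 : ℝ) : ℂ) ∂dA = 0 := by
    have : ∫ z, ((w z - g z) * conj (g' z - g z) - (w z - g' z) * conj (g' z - g z)) ∂dA = 0 := by
      rw [integral_sub hi1 hi2, h1, h2, sub_zero]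
    rw [← this]
    congr 1
    ext z
    rw [← sub_mul, sub_sub_sub_cancel_left, Complex.mul_conj, Complex.normSq_eq_norm_sq]
  rw [integral_complex_ofReal] at h3
  have h4 : ∫ z, ‖g' z - g z‖ ^ 2 ∂dA = 0 := by exact_mod_cast h3
  have hi : Integrable (fun z => ‖g' z - g z‖ ^ 2) dA :=
    (memLp_two_iff_integrable_sq_norm hk.2.1).1 hk.2
  rw [integral_eq_zero_iff_of_nonneg (fun z => sq_nonneg _) hi] at h4
  have h5 : ∀ᵐ z ∂dA, g z = g' z := by
    filter_upwards [h4] with z hz
    have : ‖g' z - g z‖ = 0 := by simpa using hz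
    exact (sub_eq_zero.1 (norm_eq_zero.1 this)).symm
  rw [ae_dA_iff] at h5
  exact Measure.eqOn_open_of_ae_eq h5 isOpen_ball hg.1.1.continuousOn hg'.1.1.continuousOn

/-- For an essentially bounded symbol, `toeplitz n f h` is the projection of `f h`. -/
theorem toeplitz_spec (n : ℕ) {f h : ℂ → ℂ} (hf : MemLp f ∞ dA) (hh : MemLp h 2 dA) :
    IsProjection n (fun z => f z * h z) (toeplitz n f h) := by
  have H := exists_projection n (memLp_mul hf hh)
  rw [toeplitz, dif_pos H]
  exact H.choose_spec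

/-- The projection of `v · z^l conj(z)^(n-1)` when `v = v₁ + conj (z^l Q)`. -/
lemma proj_eq {n l : ℕ} (hn : 1 ≤ n) {v v1 Q : ℂ → ℂ}
    (hv1 : DifferentiableOn ℂ v1 (ball 0 1)) (hQ : DifferentiableOn ℂ Q (ball 0 1))
    (hv : MemLp v ∞ dA) (hv1L : MemLp v1 2 dA)
    (hdec : ∀ z ∈ ball (0 : ℂ) 1, v z = v1 z + conj (z ^ l * Q z)) :
    IsProjection n (fun z => v z * (z ^ l * (conj z) ^ (n - 1))) (fun z =>
      v1 z * (z ^ l * (conj z) ^ (n - 1)) +
        (n * conj (Q 0) / (n + l)) * (conj z) ^ (n - 1)) := by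
  set k : ℂ := n * conj (Q 0) / (n + l) with hk
  have hmono : MemLp (fun z : ℂ => (conj z) ^ (n - 1)) ∞ dA := by
    simpa using memLp_mono_top 0 (n - 1)
  have hsL : MemLp (fun z => v1 z * (z ^ l * (conj z) ^ (n - 1)) + k * (conj z) ^ (n - 1)) 2 dA := by
    apply MemLp.add
    · have := memLp_mul (memLp_mono_top l (n - 1)) hv1L
      simpa only [mul_comm] using this
    · exact (memLp_top_two hmono).const_mul k
  refine ⟨⟨⟨fun j z => if j = n - 1 then v1 z * z ^ l + k else 0, ?_, ?_⟩, hsL⟩, ?_⟩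
  · intro j _
    by_cases hj : j = n - 1
    · simp only [hj, if_true]
      exact (hv1.mul (by fun_prop)).add_const _
    · simp only [hj, if_false]
      exact differentiableOn_const _
  · intro z _
    rw [Finset.sum_eq_single (n - 1)]
    · simp only [if_true]; ring
    · intro j _ hj
      simp [hj]
    · intro h
      exact absurd (Finset.mem_range.2 (by omega)) h
  rintro h' ⟨⟨c, hc, hh'⟩, hh2⟩
  -- the two pieces
  have hg : MemLp (fun z => z ^ l * Q z) 2 dA := by
    have h1 : MemLp (fun z => v z - v1 z) 2 dA := (memLp_top_two hv).sub hv1L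
    refine (memLp_congr_ae ?_).1 (memLp_conj h1)
    filter_upwards [ae_dA_mem] with z hz
    rw [hdec z hz, add_sub_cancel_left, Complex.conj_conj]
  have hg' : MemLp (fun z => Q z * z ^ (n - 1 + l) * (conj z) ^ l) 2 dA := by
    have := memLp_mul (memLp_mono_top (n - 1) l) hg
    refine (memLp_congr_ae ?_).1 this
    filter_upwards with z
    ring
  have hi1 : Integrable (fun z => (∑ j ∈ Finset.range n, c j z * (conj z) ^ j) *
      (Q z * z ^ (n - 1 + l) * (conj z) ^ l)) dA := by
    refine (integrable_mul_two hh2 hg').congr ?_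
    filter_upwards [ae_dA_mem] with z hz
    rw [hh' z hz]
  have hi2 : Integrable (fun z => (∑ j ∈ Finset.range n, c j z * (conj z) ^ j) *
      ((1 : ℂ) * z ^ (n - 1 + 0) * (conj z) ^ 0)) dA := by
    refine (integrable_mul_two hh2 (memLp_top_two (memLp_mono_top (n - 1) 0))).congr ?_
    filter_upwards [ae_dA_mem] with z hz
    rw [hh' z hz]
    simp
  have e1 := key (l := l) hn hc hQ ((integrable_dA_iff _).1 hi1)
  have e2 := key (l := 0) (q := fun _ => 1) hn hc (differentiableOn_const _)
    ((integrable_dA_iff _).1 hi2)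
  have e3 : ∫ z, conj ((v z * (z ^ l * (conj z) ^ (n - 1)) -
      (v1 z * (z ^ l * (conj z) ^ (n - 1)) + k * (conj z) ^ (n - 1))) * conj (h' z)) ∂dA =
      ∫ z, ((∑ j ∈ Finset.range n, c j z * (conj z) ^ j) *
      (Q z * z ^ (n - 1 + l) * (conj z) ^ l) - conj k *
        ((∑ j ∈ Finset.range n, c j z * (conj z) ^ j) *
      ((1 : ℂ) * z ^ (n - 1 + 0) * (conj z) ^ 0))) ∂dA := by
    apply integral_congr_ae
    filter_upwards [ae_dA_mem] with z hz
    rw [hh' z hz, hdec z hz]
    simp only [map_sub, map_add, map_mul, map_pow, Complex.conj_conj]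
    ring
  have e4 : ∫ z, conj ((v z * (z ^ l * (conj z) ^ (n - 1)) -
      (v1 z * (z ^ l * (conj z) ^ (n - 1)) + k * (conj z) ^ (n - 1))) * conj (h' z)) ∂dA = 0 := by
    rw [e3, integral_sub hi1 (hi2.const_mul _), integral_const_mul, integral_dA, integral_dA,
      e1, e2]
    have hn0 : (n : ℂ) ≠ 0 := by exact_mod_cast (by omega : n ≠ 0)
    have hnl : ((n : ℂ) + l) ≠ 0 := by exact_mod_cast (by omega : n + l ≠ 0)
    have hpi : (π : ℂ) ≠ 0 := by exact_mod_cast Real.pi_ne_zero
    rw [hk]
    simp only [map_div₀, map_mul, map_add, Complex.conj_natCast, Complex.conj_conj,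
      Complex.real_smul, Nat.cast_zero, add_zero]
    push_cast
    field_simp
    ring
  rw [integral_conj] at e4
  simpa using e4

lemma memBergman_mono {n : ℕ} (a b : ℕ) (hb : b < n) :
    MemBergman n (fun z => z ^ a * (conj z) ^ b) := by
  refine ⟨⟨fun j z => if j = b then z ^ a else 0, ?_, ?_⟩, memLp_top_two (memLp_mono_top a b)⟩
  · intro j _
    by_cases hj : j = b
    · simp only [hj, if_true]; fun_prop
    · simp only [hj, if_false]; exact differentiableOn_const _
  · intro z _
    rw [Finset.sum_eq_single b]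
    · simp
    · intro j _ hj; simp [hj]
    · intro h
      exact absurd (Finset.mem_range.2 hb) h

lemma proj_pairing {n : ℕ} {w g b : ℂ → ℂ} (hw : MemLp w 2 dA) (hg : IsProjection n w g)
    (hb : MemBergman n b) : ∫ z, w z * conj (b z) ∂dA = ∫ z, g z * conj (b z) ∂dA := by
  have h1 := hg.2 b hb
  have h2 : ∫ z, (w z * conj (b z) - g z * conj (b z)) ∂dA = 0 := by
    rw [← h1]
    congr 1
    ext z
    ring
  rw [integral_sub (integrable_mul_two hw (memLp_conj hb.2))
    (integrable_mul_two hg.1.2 (memLp_conj hb.2))] at h2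
  exact sub_eq_zero.1 h2

/-- If `T_u T_v = T_F` on `A²_n`, and `s = T_v a`, then `∫ u s conj b = ∫ F a conj b`. -/
lemma pairing_eq {n : ℕ} {u v F a b s : ℂ → ℂ} (hu : MemLp u ∞ dA) (hv : MemLp v ∞ dA)
    (hF : MemLp F ∞ dA)
    (hT : ∀ h, MemBergman n h → EqOn (toeplitz n u (toeplitz n v h)) (toeplitz n F h) (ball 0 1))
    (ha : MemBergman n a) (hb : MemBergman n b) (hs : IsProjection n (fun z => v z * a z) s) :
    ∫ z, (u z * s z) * conj (b z) ∂dA = ∫ z, (F z * a z) * conj (b z) ∂dA := by
  have h1 := toeplitz_spec n hv ha.2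
  have h2 : EqOn (toeplitz n v a) s (ball 0 1) := projection_unique (memLp_mul hv ha.2) h1 hs
  have h3 := toeplitz_spec n hu h1.1.2
  have h4 := toeplitz_spec n hF ha.2
  rw [proj_pairing (memLp_mul hF ha.2) h4 hb]
  have h5 : ∫ z, (u z * s z) * conj (b z) ∂dA =
      ∫ z, (u z * toeplitz n v a z) * conj (b z) ∂dA := by
    apply integral_congr_ae
    filter_upwards [ae_dA_mem] with z hz
    rw [h2 hz]
  rw [h5, proj_pairing (memLp_mul hu h1.1.2) h3 hb]
  apply integral_congr_ae
  filter_upwards [ae_dA_mem] with z hz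
  rw [hT a ha hz]

open InnerProductSpace in
/-- **Main theorem.** Let `n ≥ 2`, let `u, v` be bounded harmonic functions on the unit disc and
`F ∈ L^∞`. If `T_u T_v = T_F` on the `n`-analytic Bergman space `A²_n`, then `conj u` or `v` is
holomorphic on the disc. -/
theorem result (n : ℕ) (hn : 2 ≤ n) (u v F : ℂ → ℂ)
    (hu : HarmonicOnNhd u (ball (0 : ℂ) 1)) (hub : ∃ C : ℝ, ∀ z ∈ ball (0 : ℂ) 1, ‖u z‖ ≤ C)
    (hv : HarmonicOnNhd v (ball (0 : ℂ) 1)) (hvb : ∃ C : ℝ, ∀ z ∈ ball (0 : ℂ) 1, ‖v z‖ ≤ C)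
    (hF : MemLp F ∞ dA)
    (hT : ∀ h, MemBergman n h →
      EqOn (toeplitz n u (toeplitz n v h)) (toeplitz n F h) (ball (0 : ℂ) 1)) :
    DifferentiableOn ℂ (fun z => conj (u z)) (ball (0 : ℂ) 1) ∨
      DifferentiableOn ℂ v (ball (0 : ℂ) 1) := by
  obtain ⟨Cu, hCu⟩ := hub
  obtain ⟨Cv, hCv⟩ := hvb
  obtain ⟨f, gu, hf, hgu, hudec⟩ := harmonic_decomp hu
  obtain ⟨v1, gv, hv1, hgv, hvdec⟩ := harmonic_decomp hv
  have huL : MemLp u ∞ dA := memLp_top_of_cont hu.continuousOn hCu
  have hvL : MemLp v ∞ dA := memLp_top_of_cont hv.continuousOn hCv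
  by_cases hfc : ∃ z ∈ ball (0 : ℂ) 1, f z ≠ f 0
  swap
  · left
    push Not at hfc
    have : DifferentiableOn ℂ (fun z => conj (f 0) + gu z) (ball (0 : ℂ) 1) := hgu.const_add _
    apply this.congr
    intro z hz
    rw [hudec z hz, hfc z hz]
    simp
  by_cases hgc : ∃ z ∈ ball (0 : ℂ) 1, gv z ≠ gv 0
  swap
  · right
    push Not at hgc
    have : DifferentiableOn ℂ (fun z => v1 z + conj (gv 0)) (ball (0 : ℂ) 1) := hv1.add_const _
    apply this.congr
    intro z hz
    rw [hvdec z hz, hgc z hz]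
  exfalso
  obtain ⟨j, p, hj, hp, hp0, hfp⟩ := exists_order hf hfc
  obtain ⟨l, q, hl, hq, hq0, hgq⟩ := exists_order hgv hgc
  -- normalised decompositions
  set V : ℂ → ℂ := fun z => v1 z + conj (gv 0) with hV
  set U : ℂ → ℂ := fun z => gu z + conj (f 0) with hU
  have hVd : DifferentiableOn ℂ V (ball 0 1) := hv1.add_const _
  have hUd : DifferentiableOn ℂ U (ball 0 1) := hgu.add_const _
  have hvV : ∀ z ∈ ball (0 : ℂ) 1, v z = V z + conj (z ^ l * q z) := by
    intro z hz
    rw [hvdec z hz, hgq z hz, hV, map_add]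
    ring
  have huU : ∀ z ∈ ball (0 : ℂ) 1, u z = z ^ j * p z + conj (U z) := by
    intro z hz
    rw [hudec z hz, hfp z hz, hU, map_add, Complex.conj_conj]
    ring
  have hVL : MemLp V 2 dA := by
    apply memLp_of_bounded hVd (g := fun z => z ^ l * q z) _ (C := Cv)
    · intro z hz
      rw [← hvV z hz]; exact hCv z hz
    · exact (by fun_prop : DifferentiableOn ℂ (fun z : ℂ => z ^ l) (ball 0 1)).mul hq
  have hzp : DifferentiableOn ℂ (fun z => z ^ j * p z) (ball 0 1) :=
    (by fun_prop : DifferentiableOn ℂ (fun z : ℂ => z ^ j) (ball 0 1)).mul hp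
  have hfL : MemLp (fun z => z ^ j * p z) 2 dA := by
    apply memLp_of_bounded hzp hUd (C := Cu)
    intro z hz
    rw [← huU z hz]; exact hCu z hz
  have hUL : MemLp U 2 dA := by
    apply memLp_of_bounded hUd hzp (C := Cu)
    intro z hz
    have : U z + conj (z ^ j * p z) = conj (u z) := by
      rw [huU z hz, map_add, Complex.conj_conj, add_comm]
    rw [this, RCLike.norm_conj]; exact hCu z hz
  -- test vectors
  have hA := memBergman_mono (n := n) l (n - 1) (by omega)
  have hA' := memBergman_mono (n := n) (l - 1) (n - 1) (by omega)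
  have hB := memBergman_mono (n := n) (j - 1) (n - 2) (by omega)
  have hB' := memBergman_mono (n := n) (j - 1) (n - 1) (by omega)
  have hTA := proj_eq (n := n) (by omega) hVd hq hvL hVL hvV
  have hTA' := proj_eq (n := n) (l := l - 1) (Q := fun z => z * q z) (by omega) hVd
    (differentiableOn_id.mul hq) hvL hVL (by
      intro z hz
      rw [hvV z hz]
      congr 2
      have : z ^ l = z ^ (l - 1) * z := by rw [← pow_succ]; congr 1; omega
      rw [this]; ring)
  simp only [zero_mul, map_zero, mul_zero, zero_div, add_zero] at hTA'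
  set k : ℂ := n * conj (q 0) / (n + l) with hk
  have hk0 : k ≠ 0 := by
    have hn0 : (n : ℂ) ≠ 0 := by exact_mod_cast (by omega : n ≠ 0)
    have hnl : ((n : ℂ) + l) ≠ 0 := by exact_mod_cast (by omega : n + l ≠ 0)
    rw [hk]
    apply div_ne_zero _ hnl
    apply mul_ne_zero hn0
    simpa using hq0
  have i1 := pairing_eq huL hvL hF hT hA hB hTA
  have i2 := pairing_eq huL hvL hF hT hA' hB' hTA'
  have hpow : ∀ z : ℂ, (z ^ l * (conj z) ^ (n - 1)) * conj (z ^ (j - 1) * (conj z) ^ (n - 2)) =
      (z ^ (l - 1) * (conj z) ^ (n - 1)) * conj (z ^ (j - 1) * (conj z) ^ (n - 1)) := by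
    intro z
    have e1 : z ^ l = z ^ (l - 1) * z := by rw [← pow_succ]; congr 1; omega
    have e2 : z ^ (n - 1) = z ^ (n - 2) * z := by rw [← pow_succ]; congr 1; omega
    simp only [map_mul, map_pow, Complex.conj_conj]
    rw [e1, e2]; ring
  have h34 : ∫ z, (F z * (z ^ l * (conj z) ^ (n - 1))) * conj (z ^ (j - 1) * (conj z) ^ (n - 2)) ∂dA
      = ∫ z, (F z * (z ^ (l - 1) * (conj z) ^ (n - 1))) *
        conj (z ^ (j - 1) * (conj z) ^ (n - 1)) ∂dA := by
    congr 1
    ext z
    have := hpow z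
    linear_combination F z * this
  rw [h34, ← i2] at i1
  -- split the remaining integral
  have hint1 : Integrable (fun z => (u z * (V z * (z ^ l * (conj z) ^ (n - 1)))) *
      conj (z ^ (j - 1) * (conj z) ^ (n - 2))) dA := by
    have h2 := memLp_mul (memLp_mono_top l (n - 1)) hVL
    have h3 := integrable_mul_two (memLp_mul huL h2) (memLp_conj hB.2)
    refine h3.congr ?_
    filter_upwards with z
    ring
  have hint2 : Integrable (fun z => (u z * (k * (conj z) ^ (n - 1))) *
      conj (z ^ (j - 1) * (conj z) ^ (n - 2))) dA := by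
    have h1 : MemLp (fun z : ℂ => k * (z ^ 0 * (conj z) ^ (n - 1))) 2 dA :=
      (memLp_top_two (memLp_mono_top 0 (n - 1))).const_mul k
    have h3 := integrable_mul_two (memLp_mul huL h1) (memLp_conj hB.2)
    refine h3.congr ?_
    filter_upwards with z
    ring
  have hsplit : ∫ z, (u z * (V z * (z ^ l * (conj z) ^ (n - 1)) + k * (conj z) ^ (n - 1))) *
      conj (z ^ (j - 1) * (conj z) ^ (n - 2)) ∂dA =
      (∫ z, (u z * (V z * (z ^ l * (conj z) ^ (n - 1)))) *
        conj (z ^ (j - 1) * (conj z) ^ (n - 2)) ∂dA) +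
      ∫ z, (u z * (k * (conj z) ^ (n - 1))) * conj (z ^ (j - 1) * (conj z) ^ (n - 2)) ∂dA := by
    rw [← integral_add hint1 hint2]
    congr 1
    ext z
    ring
  have hsame : ∫ z, (u z * (V z * (z ^ l * (conj z) ^ (n - 1)))) *
        conj (z ^ (j - 1) * (conj z) ^ (n - 2)) ∂dA =
      ∫ z, (u z * (V z * (z ^ (l - 1) * (conj z) ^ (n - 1)))) *
        conj (z ^ (j - 1) * (conj z) ^ (n - 1)) ∂dA := by
    congr 1
    ext z
    have := hpow z
    linear_combination u z * V z * this
  rw [hsplit, hsame] at i1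
  have hzero : ∫ z, (u z * (k * (conj z) ^ (n - 1))) *
      conj (z ^ (j - 1) * (conj z) ^ (n - 2)) ∂dA = 0 := by
    linear_combination i1
  -- compute the last integral
  have hval : ∫ z, (u z * (k * (conj z) ^ (n - 1))) * conj (z ^ (j - 1) * (conj z) ^ (n - 2)) ∂dA
      = k * (p 0 / (n + j - 1)) := by
    have hc1 : ∀ i < 1, DifferentiableOn ℂ ((fun (_ : ℕ) (_ : ℂ) => (1 : ℂ)) i) (ball 0 1) :=
      fun i _ => differentiableOn_const _
    have m1 : MemLp (fun z => p z * z ^ (n + j - 2) * (conj z) ^ (n + j - 2)) 2 dA := by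
      have := memLp_mul (memLp_mono_top (n - 2) (n + j - 2)) hfL
      refine (memLp_congr_ae ?_).1 this
      filter_upwards with z
      have : z ^ (n + j - 2) = z ^ (n - 2) * z ^ j := by rw [← pow_add]; congr 1; omega
      rw [this]; ring
    have m2 : MemLp (fun z => U z * z ^ (n + j - 2) * (conj z) ^ (n - 2)) 2 dA := by
      have := memLp_mul (memLp_mono_top (n + j - 2) (n - 2)) hUL
      refine (memLp_congr_ae ?_).1 this
      filter_upwards with z
      ring
    have int1 : Integrable (fun z => p z * z ^ (n + j - 2) * (conj z) ^ (n + j - 2)) dA :=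
      memLp_one_iff_integrable.1 (m1.mono_exponent (by norm_num))
    have int2 : Integrable (fun z => U z * z ^ (n + j - 2) * (conj z) ^ (n - 2)) dA :=
      memLp_one_iff_integrable.1 (m2.mono_exponent (by norm_num))
    have k1 : ∫ z, p z * z ^ (n + j - 2) * (conj z) ^ (n + j - 2) ∂dA = p 0 / (n + j - 1) := by
      have hi : IntegrableOn (fun z => (∑ i ∈ Finset.range 1, (fun (_ : ℕ) (_ : ℂ) => (1 : ℂ)) i z *
          (conj z) ^ i) * (p z * z ^ (1 - 1 + (n + j - 2)) * (conj z) ^ (n + j - 2)))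
          (ball 0 1) := by
        rw [← integrable_dA_iff]
        refine int1.congr ?_
        filter_upwards with z
        simp
      have hkey := key (n := 1) (l := n + j - 2) le_rfl hc1 hp hi
      rw [integral_dA]
      simp only [Finset.range_one, Finset.sum_singleton, pow_zero, one_mul,
        Nat.sub_self, zero_add] at hkey
      rw [hkey, Complex.real_smul]
      have h2 : ((n + j - 2 : ℕ) : ℂ) = n + j - 2 := by
        rw [Nat.cast_sub (by omega)]; push_cast; ring
      rw [h2]
      have hpi : (π : ℂ) ≠ 0 := by exact_mod_cast Real.pi_ne_zero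
      have h3 : ((1 : ℕ) : ℂ) + (n + j - 2) = n + j - 1 := by push_cast; ring
      rw [h3]
      push_cast
      field_simp
    have k2 : ∫ z, U z * z ^ (n + j - 2) * (conj z) ^ (n - 2) ∂dA = 0 := by
      have hd : DifferentiableOn ℂ (fun z => U z * z ^ j) (ball 0 1) :=
        hUd.mul (by fun_prop)
      have hi : IntegrableOn (fun z => (∑ i ∈ Finset.range 1, (fun (_ : ℕ) (_ : ℂ) => (1 : ℂ)) i z *
          (conj z) ^ i) * ((fun z => U z * z ^ j) z * z ^ (1 - 1 + (n - 2)) * (conj z) ^ (n - 2)))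
          (ball 0 1) := by
        rw [← integrable_dA_iff]
        refine int2.congr ?_
        filter_upwards with z
        have : z ^ (n + j - 2) = z ^ (n - 2) * z ^ j := by rw [← pow_add]; congr 1; omega
        rw [this]
        simp only [Finset.range_one, Finset.sum_singleton, pow_zero, one_mul,
          Nat.sub_self, zero_add]
        ring
      have hkey := key (n := 1) (l := n - 2) le_rfl hc1 hd hi
      rw [integral_dA]
      have : ∫ z in ball (0 : ℂ) 1, U z * z ^ (n + j - 2) * (conj z) ^ (n - 2) =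
          ∫ z in ball (0 : ℂ) 1, (∑ i ∈ Finset.range 1, (fun (_ : ℕ) (_ : ℂ) => (1 : ℂ)) i z *
          (conj z) ^ i) * ((fun z => U z * z ^ j) z * z ^ (1 - 1 + (n - 2)) * (conj z) ^ (n - 2)) := by
        congr 1
        ext z
        have : z ^ (n + j - 2) = z ^ (n - 2) * z ^ j := by rw [← pow_add]; congr 1; omega
        rw [this]
        simp only [Finset.range_one, Finset.sum_singleton, pow_zero, one_mul,
          Nat.sub_self, zero_add]
        ring
      rw [this, hkey]
      simp [show j ≠ 0 by omega]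
    have k3 : ∫ z, conj (U z * z ^ (n + j - 2) * (conj z) ^ (n - 2)) ∂dA = 0 := by
      rw [integral_conj, k2, map_zero]
    have k4 : ∫ z, (u z * (k * (conj z) ^ (n - 1))) * conj (z ^ (j - 1) * (conj z) ^ (n - 2)) ∂dA
        = ∫ z, (k * (p z * z ^ (n + j - 2) * (conj z) ^ (n + j - 2)) +
          k * conj (U z * z ^ (n + j - 2) * (conj z) ^ (n - 2))) ∂dA := by
      apply integral_congr_ae
      filter_upwards [ae_dA_mem] with z hz
      rw [huU z hz]
      have e1 : z ^ (n + j - 2) = z ^ (n - 2) * z ^ j := by rw [← pow_add]; congr 1; omega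
      have e2 : (conj z) ^ (n + j - 2) = (conj z) ^ (j - 1) * (conj z) ^ (n - 1) := by
        rw [← pow_add]; congr 1; omega
      simp only [map_mul, map_pow, Complex.conj_conj]
      rw [e2, e1]
      ring
    rw [k4, integral_add (int1.const_mul k), integral_const_mul, integral_const_mul, k1, k3]
    · ring
    · apply Integrable.const_mul
      exact memLp_one_iff_integrable.1 ((memLp_conj m2).mono_exponent (by norm_num))
  rw [hval] at hzero
  have hne : ((n : ℂ) + j - 1) ≠ 0 := by
    have h2 : ((n + j - 1 : ℕ) : ℂ) = n + j - 1 := by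
      rw [Nat.cast_sub (by omega)]; push_cast; ring
    rw [← h2]
    exact_mod_cast (by omega : n + j - 1 ≠ 0)
  exact mul_ne_zero hk0 (div_ne_zero hp0 hne) hzero

end Pool.Agent.Results.MP_70342b_an.HarmonicToeplitz
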